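import Mathlib

/-!
# Not every bounded tolerance graph is a max-tolerance graph

The complete bipartite graph `K_{n,n}` is a bounded tolerance graph for every `n`, and it is not a
max-tolerance graph for `n ≥ 9`.

For the second part, put `f₁ = L`, `f₂ = -R` and `f₃ = t`. In a max-tolerance representation two
vertices `x`, `y` are adjacent iff `∑ₖ max (fₖ x) (fₖ y) ≤ 0`. By taking medians three times one
finds two vertices `a`, `a'` in the first class and two vertices `b`, `b'` in the second class such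
that for each `k` either `fₖ a, fₖ a' ≤ fₖ b, fₖ b'` or `fₖ b, fₖ b' ≤ fₖ a, fₖ a'`. Then
`∑ₖ (max (fₖ a) (fₖ a') + max (fₖ b) (fₖ b')) ≤ ∑ₖ (max (fₖ a) (fₖ b) + max (fₖ a') (fₖ b'))`,
which contradicts the fact that `a b` and `a' b'` are edges and `a a'` and `b b'` are not.
-/

set_option autoImplicit false

namespace Pool.Agent.Results.MP_78c384_co.CompleteBipartite

/-- The length of the intersection of the closed intervals `[a, b]` and `[c, d]` (`0` if it is
empty). -/
def overlap (a b c d : ℝ) : ℝ := max 0 (min b d - max a c)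

/-- `G` is a bounded tolerance graph: there are closed intervals `[L v, R v]` and tolerances
`0 < t v ≤ R v - L v` such that distinct vertices `x`, `y` are adjacent iff the length of the
intersection of their intervals is at least `min (t x) (t y)`. -/
def IsBoundedToleranceGraph {V : Type} (G : SimpleGraph V) : Prop :=
  ∃ L R t : V → ℝ, (∀ v, L v ≤ R v) ∧ (∀ v, 0 < t v) ∧ (∀ v, t v ≤ R v - L v) ∧
    ∀ x y, x ≠ y → (G.Adj x y ↔ min (t x) (t y) ≤ overlap (L x) (R x) (L y) (R y))

/-- `G` is a max-tolerance graph: there are closed intervals `[L v, R v]` and tolerances `0 < t v`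
such that distinct vertices `x`, `y` are adjacent iff the length of the intersection of their
intervals is at least `max (t x) (t y)`. -/
def IsMaxToleranceGraph {V : Type} (G : SimpleGraph V) : Prop :=
  ∃ L R t : V → ℝ, (∀ v, L v ≤ R v) ∧ (∀ v, 0 < t v) ∧
    ∀ x y, x ≠ y → (G.Adj x y ↔ max (t x) (t y) ≤ overlap (L x) (R x) (L y) (R y))

/-- `overlap` is the length of the intersection. -/
theorem overlap_eq_volume (a b c d : ℝ) :
    overlap a b c d = (MeasureTheory.volume (Set.Icc a b ∩ Set.Icc c d)).toReal := by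
  rw [Set.Icc_inter_Icc, Real.volume_Icc, ENNReal.toReal_ofReal', overlap, max_comm]

/-- A median value of `f` on `S`. -/
theorem median {A : Type} (S : Finset A) (f : A → ℝ) (p : ℕ) (hp : 1 ≤ p)
    (hS : 2 * p - 1 ≤ S.card) :
    ∃ c : ℝ, p ≤ (S.filter fun s => f s ≤ c).card ∧ p ≤ (S.filter fun s => c ≤ f s).card := by
  classical
  have hne : S.Nonempty := by rw [← Finset.card_pos]; omega
  let P : Finset A := S.filter fun s => p ≤ (S.filter fun s' => f s' ≤ f s).card
  have hP : P.Nonempty := by
    obtain ⟨m, hm, hmax⟩ := Finset.exists_max_image S f hne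
    refine ⟨m, Finset.mem_filter.2 ⟨hm, ?_⟩⟩
    rw [Finset.filter_true_of_mem hmax]
    omega
  obtain ⟨s, hs, hmin⟩ := Finset.exists_min_image P f hP
  have hs' := Finset.mem_filter.1 hs
  refine ⟨f s, hs'.2, ?_⟩
  by_contra hcon
  push Not at hcon
  have h1 : p ≤ (S.filter fun s' => f s' < f s).card := by
    have h2 := Finset.card_filter_add_card_filter_not (s := S) (fun s' => f s ≤ f s')
    simp only [not_le] at h2
    omega
  have hne' : (S.filter fun s' => f s' < f s).Nonempty := by
    rw [← Finset.card_pos]; omega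
  obtain ⟨m, hm, hmax⟩ := Finset.exists_max_image _ f hne'
  have hm' := Finset.mem_filter.1 hm
  have h3 : m ∈ P := by
    refine Finset.mem_filter.2 ⟨hm'.1, h1.trans (Finset.card_le_card ?_)⟩
    intro x hx
    exact Finset.mem_filter.2 ⟨(Finset.mem_filter.1 hx).1, hmax x hx⟩
  exact absurd (hmin m h3) (not_le.2 hm'.2)

/-- Two large subsets one of which lies below the other one. -/
theorem split {A B : Type} (S : Finset A) (T : Finset B) (f : A → ℝ) (g : B → ℝ) (p : ℕ)
    (hp : 1 ≤ p) (hS : 2 * p - 1 ≤ S.card) (hT : 2 * p - 1 ≤ T.card) :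
    ∃ S' ⊆ S, ∃ T' ⊆ T, p ≤ S'.card ∧ p ≤ T'.card ∧
      ((∀ a ∈ S', ∀ b ∈ T', f a ≤ g b) ∨ ∀ a ∈ S', ∀ b ∈ T', g b ≤ f a) := by
  classical
  obtain ⟨c, h1, h2⟩ := median S f p hp hS
  by_cases h : p ≤ (T.filter fun b => c ≤ g b).card
  · refine ⟨_, Finset.filter_subset _ _, _, Finset.filter_subset _ _, h1, h, Or.inl ?_⟩
    intro a ha b hb
    exact (Finset.mem_filter.1 ha).2.trans (Finset.mem_filter.1 hb).2
  · refine ⟨_, Finset.filter_subset _ _, T.filter fun b => ¬ c ≤ g b, Finset.filter_subset _ _, h2,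
      ?_, Or.inr ?_⟩
    · have h3 := Finset.card_filter_add_card_filter_not (s := T) (fun b => c ≤ g b)
      omega
    · intro a ha b hb
      exact (not_le.1 (Finset.mem_filter.1 hb).2).le.trans (Finset.mem_filter.1 ha).2

/-- The inequality in one coordinate. -/
theorem coord {a a' b b' : ℝ} (h : (a ≤ b ∧ a ≤ b' ∧ a' ≤ b ∧ a' ≤ b') ∨
    (b ≤ a ∧ b ≤ a' ∧ b' ≤ a ∧ b' ≤ a')) :
    max a a' + max b b' ≤ max a b + max a' b' := by
  rcases h with ⟨h1, h2, h3, h4⟩ | ⟨h1, h2, h3, h4⟩
  · rw [max_eq_right h1, max_eq_right h4]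
    rcases le_total a a' with h | h <;> rcases le_total b b' with h' | h' <;>
      simp only [max_eq_left, max_eq_right, h, h'] <;> linarith
  · rw [max_eq_left h1, max_eq_left h4]
    rcases le_total a a' with h | h <;> rcases le_total b b' with h' | h' <;>
      simp only [max_eq_left, max_eq_right, h, h'] <;> linarith

theorem adj_iff {V : Type} {G : SimpleGraph V} {L R t : V → ℝ} (ht : ∀ v, 0 < t v)
    (h : ∀ x y, x ≠ y → (G.Adj x y ↔ max (t x) (t y) ≤ overlap (L x) (R x) (L y) (R y)))
    {x y : V} (hxy : x ≠ y) :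
    G.Adj x y ↔ max (L x) (L y) + max (-R x) (-R y) + max (t x) (t y) ≤ 0 := by
  rw [h x y hxy, overlap, le_max_iff, max_neg_neg]
  constructor
  · rintro (h1 | h1)
    · exact absurd h1 (not_le.2 (lt_max_of_lt_left (ht x)))
    · linarith
  · intro h1
    right
    linarith

/-- `K_{n,n}` is a bounded tolerance graph for every `n`, and it is not a max-tolerance graph if
`n ≥ 9`. In particular, not every bounded tolerance graph is a max-tolerance graph. -/
theorem result :
    (∀ n : ℕ, IsBoundedToleranceGraph (completeBipartiteGraph (Fin n) (Fin n))) ∧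
    ∀ n : ℕ, 9 ≤ n → ¬ IsMaxToleranceGraph (completeBipartiteGraph (Fin n) (Fin n)) := by
  refine ⟨fun n => ?_, ?_⟩
  · -- small disjoint intervals `[2 i, 2 i + 1]` and long intervals `[-1 - j, 3 n - j]`
    refine ⟨Sum.elim (fun i => 2 * (i : ℝ)) fun j => -1 - (j : ℝ),
      Sum.elim (fun i => 2 * (i : ℝ) + 1) fun j => 3 * n - (j : ℝ),
      Sum.elim (fun _ => 1) fun _ => 3 * n + 1, ?_, ?_, ?_, ?_⟩
    · rintro (i | j)
      · simp
      · simp only [Sum.elim_inr]
        have : (0 : ℝ) ≤ n := Nat.cast_nonneg n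
        linarith
    · rintro (i | j)
      · simp
      · simp only [Sum.elim_inr]
        positivity
    · rintro (i | j)
      · simp
      · simp only [Sum.elim_inr]
        linarith
    · have key : ∀ (i j : Fin n), (1 : ℝ) ≤ min (2 * (i : ℝ) + 1) (3 * n - j) - max (2 * (i : ℝ)) (-1 - j) := by
        intro i j
        have hi : (i : ℝ) + 1 ≤ n := by exact_mod_cast i.2
        have hj : (j : ℝ) + 1 ≤ n := by exact_mod_cast j.2
        have hi0 : (0 : ℝ) ≤ i := Nat.cast_nonneg _
        have hj0 : (0 : ℝ) ≤ j := Nat.cast_nonneg _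
        rw [min_eq_left (by linarith), max_eq_left (by linarith)]
        linarith
      rintro (i | j) (i' | j') hne
      · simp only [completeBipartiteGraph_adj, Sum.isLeft_inl, Sum.isRight_inl, Sum.elim_inl,
          overlap, min_self]
        have hne' : (i : ℕ) ≠ i' := fun h => hne (by rw [Fin.ext h])
        constructor
        · simp
        · intro h
          exfalso
          rcases Nat.lt_or_gt_of_ne hne' with h1 | h1
          · have h2 : (i : ℝ) + 1 ≤ i' := by exact_mod_cast h1
            have h3 : min (2 * (i : ℝ) + 1) (2 * (i' : ℝ) + 1) ≤ 2 * (i : ℝ) + 1 := min_le_left _ _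
            have h4 : 2 * (i' : ℝ) ≤ max (2 * (i : ℝ)) (2 * (i' : ℝ)) := le_max_right _ _
            rw [le_max_iff] at h
            rcases h with h | h <;> linarith
          · have h2 : (i' : ℝ) + 1 ≤ i := by exact_mod_cast h1
            have h3 : min (2 * (i : ℝ) + 1) (2 * (i' : ℝ) + 1) ≤ 2 * (i' : ℝ) + 1 := min_le_right _ _
            have h4 : 2 * (i : ℝ) ≤ max (2 * (i : ℝ)) (2 * (i' : ℝ)) := le_max_left _ _
            rw [le_max_iff] at h
            rcases h with h | h <;> linarith
      · simp only [completeBipartiteGraph_adj, Sum.isLeft_inl, Sum.isRight_inl, Sum.isLeft_inr,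
          Sum.isRight_inr, Sum.elim_inl, Sum.elim_inr, overlap]
        have h1 := key i j'
        have h2 : min (1 : ℝ) (3 * n + 1) ≤ 1 := min_le_left _ _
        simp only [true_and, true_or, true_iff]
        exact h2.trans (h1.trans (le_max_right _ _))
      · simp only [completeBipartiteGraph_adj, Sum.isLeft_inl, Sum.isRight_inl, Sum.isLeft_inr,
          Sum.isRight_inr, Sum.elim_inl, Sum.elim_inr, overlap]
        have h1 := key i' j
        have h2 : min (3 * (n : ℝ) + 1) 1 ≤ 1 := min_le_right _ _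
        simp only [or_true, true_iff, and_self]
        rw [min_comm (3 * (n : ℝ) - _), max_comm (-1 - _)]
        exact h2.trans (h1.trans (le_max_right _ _))
      · simp only [completeBipartiteGraph_adj, Sum.isLeft_inr, Sum.isRight_inr, Sum.elim_inr,
          overlap, min_self]
        have hne' : (j : ℕ) ≠ j' := fun h => hne (by rw [Fin.ext h])
        constructor
        · simp
        · intro h
          exfalso
          have h0 : (0 : ℝ) ≤ n := Nat.cast_nonneg n
          rcases Nat.lt_or_gt_of_ne hne' with h1 | h1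
          · have h2 : (j : ℝ) + 1 ≤ j' := by exact_mod_cast h1
            have h3 : min (3 * (n : ℝ) - j) (3 * n - j') ≤ 3 * n - j' := min_le_right _ _
            have h4 : -1 - (j : ℝ) ≤ max (-1 - (j : ℝ)) (-1 - j') := le_max_left _ _
            rw [le_max_iff] at h
            rcases h with h | h <;> linarith
          · have h2 : (j' : ℝ) + 1 ≤ j := by exact_mod_cast h1
            have h3 : min (3 * (n : ℝ) - j) (3 * n - j') ≤ 3 * n - j := min_le_left _ _
            have h4 : -1 - (j' : ℝ) ≤ max (-1 - (j : ℝ)) (-1 - j') := le_max_right _ _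
            rw [le_max_iff] at h
            rcases h with h | h <;> linarith
  · rintro n hn ⟨L, R, t, -, ht, h⟩
    obtain ⟨S₁, -, T₁, -, hS₁, hT₁, h₁⟩ := split (Finset.univ : Finset (Fin n)) (Finset.univ : Finset (Fin n))
      (fun a => L (Sum.inl a)) (fun b => L (Sum.inr b)) 5 (by norm_num) (by simpa using hn)
      (by simpa using hn)
    obtain ⟨S₂, hS, T₂, hT, hS₂, hT₂, h₂⟩ := split S₁ T₁
      (fun a => -R (Sum.inl a)) (fun b => -R (Sum.inr b)) 3 (by norm_num) hS₁ hT₁
    obtain ⟨S₃, hS', T₃, hT', hS₃, hT₃, h₃⟩ := split S₂ T₂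
      (fun a => t (Sum.inl a)) (fun b => t (Sum.inr b)) 2 (by norm_num) hS₂ hT₂
    obtain ⟨a, ha, a', ha', haa⟩ := Finset.one_lt_card.1 (Nat.lt_of_succ_le hS₃)
    obtain ⟨b, hb, b', hb', hbb⟩ := Finset.one_lt_card.1 (Nat.lt_of_succ_le hT₃)
    have e1 : ¬ (completeBipartiteGraph (Fin n) (Fin n)).Adj (Sum.inl a) (Sum.inl a') := by simp
    have e2 : ¬ (completeBipartiteGraph (Fin n) (Fin n)).Adj (Sum.inr b) (Sum.inr b') := by simp
    have e3 : (completeBipartiteGraph (Fin n) (Fin n)).Adj (Sum.inl a) (Sum.inr b) := by simp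
    have e4 : (completeBipartiteGraph (Fin n) (Fin n)).Adj (Sum.inl a') (Sum.inr b') := by simp
    rw [adj_iff ht h (by simpa using haa)] at e1
    rw [adj_iff ht h (by simpa using hbb)] at e2
    rw [adj_iff ht h (by simp)] at e3
    rw [adj_iff ht h (by simp)] at e4
    have c1 := coord (a := L (Sum.inl a)) (a' := L (Sum.inl a')) (b := L (Sum.inr b))
      (b' := L (Sum.inr b')) (h₁.imp
        (fun q => ⟨q a (hS (hS' ha)) b (hT (hT' hb)), q a (hS (hS' ha)) b' (hT (hT' hb')),
          q a' (hS (hS' ha')) b (hT (hT' hb)), q a' (hS (hS' ha')) b' (hT (hT' hb'))⟩)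
        (fun q => ⟨q a (hS (hS' ha)) b (hT (hT' hb)), q a' (hS (hS' ha')) b (hT (hT' hb)),
          q a (hS (hS' ha)) b' (hT (hT' hb')), q a' (hS (hS' ha')) b' (hT (hT' hb'))⟩))
    have c2 := coord (a := -R (Sum.inl a)) (a' := -R (Sum.inl a')) (b := -R (Sum.inr b))
      (b' := -R (Sum.inr b')) (h₂.imp
        (fun q => ⟨q a (hS' ha) b (hT' hb), q a (hS' ha) b' (hT' hb'),
          q a' (hS' ha') b (hT' hb), q a' (hS' ha') b' (hT' hb')⟩)
        (fun q => ⟨q a (hS' ha) b (hT' hb), q a' (hS' ha') b (hT' hb),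
          q a (hS' ha) b' (hT' hb'), q a' (hS' ha') b' (hT' hb')⟩))
    have c3 := coord (a := t (Sum.inl a)) (a' := t (Sum.inl a')) (b := t (Sum.inr b))
      (b' := t (Sum.inr b')) (h₃.imp
        (fun q => ⟨q a ha b hb, q a ha b' hb', q a' ha' b hb, q a' ha' b' hb'⟩)
        (fun q => ⟨q a ha b hb, q a' ha' b hb, q a ha b' hb', q a' ha' b' hb'⟩))
    rw [not_le] at e1 e2
    linarith

end Pool.Agent.Results.MP_78c384_co.CompleteBipartite
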